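import Pool.Agent.H82.AS.Targets

/-!
# Asymptotic formula for the number of admissible triples, board as_modules: row SQB
-/

set_option autoImplicit false

open Pool.Agent.H38.RB Pool.Agent.H38.PS Pool.Agent.H82.AS

namespace Pool.Agent.H68.AS

/-- the quotient of `n` and its radical, as a natural number -/
def qn (n : ℕ) : ℕ := ∏ p ∈ n.primeFactors, p ^ (n.factorization p - 1)

theorem prod_pf {n : ℕ} (hn : n ≠ 0) : ∏ p ∈ n.primeFactors, p ^ n.factorization p = n := by
  conv_rhs => rw [← Nat.prod_factorization_pow_eq_self hn]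
  rfl

theorem fac_pos {n p : ℕ} (hn : n ≠ 0) (hp : p ∈ n.primeFactors) : 1 ≤ n.factorization p :=
  (Nat.prime_of_mem_primeFactors hp).factorization_pos_of_dvd hn (Nat.dvd_of_mem_primeFactors hp)

theorem pd_mul_qn {n : ℕ} (hn : n ≠ 0) : pd n.primeFactors * qn n = n := by
  unfold pd qn
  rw [← Finset.prod_mul_distrib]
  conv_rhs => rw [← prod_pf hn]
  refine Finset.prod_congr rfl fun p hp => ?_
  have h := fac_pos hn hp
  rw [← pow_succ']
  congr 1
  omega

theorem pd_pos' (n : ℕ) : 0 < pd n.primeFactors :=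
  Finset.prod_pos fun _ hp => (Nat.prime_of_mem_primeFactors hp).pos

theorem qn_pos (n : ℕ) : 0 < qn n :=
  Finset.prod_pos fun _ hp => pow_pos (Nat.prime_of_mem_primeFactors hp).pos _

theorem ex_eq {n : ℕ} (hn : n ≠ 0) : ex n = (qn n : ℝ) := by
  unfold ex
  have h1 : (n : ℝ) = (pd n.primeFactors : ℝ) * (qn n : ℝ) := by
    exact_mod_cast (pd_mul_qn hn).symm
  have h2 : (pd n.primeFactors : ℝ) ≠ 0 := by exact_mod_cast (pd_pos' n).ne'
  rw [h1, mul_comm, mul_div_assoc, div_self h2, mul_one]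

theorem qn_dvd {E n : ℕ} (hn : n ≠ 0) (h : E ∣ n) : qn E ∣ qn n := by
  have hE : E ≠ 0 := fun h0 => hn (by rw [h0] at h; exact Nat.eq_zero_of_zero_dvd h)
  unfold qn
  calc ∏ p ∈ E.primeFactors, p ^ (E.factorization p - 1) ∣
        ∏ p ∈ E.primeFactors, p ^ (n.factorization p - 1) := by
        refine Finset.prod_dvd_prod_of_dvd _ _ fun p _ => pow_dvd_pow p ?_
        exact Nat.sub_le_sub_right ((Nat.factorization_le_iff_dvd hE hn).2 h p) 1
    _ ∣ ∏ p ∈ n.primeFactors, p ^ (n.factorization p - 1) :=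
        Finset.prod_dvd_prod_of_subset _ _ _ (Nat.primeFactors_mono h hn)

theorem two_le_fac {n p : ℕ} (hn : n ≠ 0) (hp : p.Prime) (h : p ^ 2 ∣ n) :
    2 ≤ n.factorization p := (hp.pow_dvd_iff_le_factorization hn).1 h

theorem fil_pos {n p : ℕ} (h : p ^ 2 ∣ n) :
    (n.factorization.filter (fun p => p ^ 2 ∣ n)) p = n.factorization p :=
  Finsupp.filter_apply_pos (fun p => p ^ 2 ∣ n) _ h

theorem fil_neg {n p : ℕ} (h : ¬ p ^ 2 ∣ n) :
    (n.factorization.filter (fun p => p ^ 2 ∣ n)) p = 0 :=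
  Finsupp.filter_apply_neg (fun p => p ^ 2 ∣ n) _ h

theorem sq_fac {n : ℕ} (_hn : n ≠ 0) :
    (Pool.Agent.H82.AS.sq n).factorization = n.factorization.filter (fun p => p ^ 2 ∣ n) := by
  have h1 : Pool.Agent.H82.AS.sq n =
      (n.factorization.filter (fun p => p ^ 2 ∣ n)).prod (fun p k => p ^ k) := by
    unfold Pool.Agent.H82.AS.sq
    rw [Finsupp.prod, Finsupp.support_filter]
    refine Finset.prod_congr rfl fun p hp => ?_
    rw [fil_pos (Finset.mem_filter.1 hp).2]
  rw [h1]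
  apply Nat.prod_pow_factorization_eq_self
  intro p hp
  rw [Finsupp.support_filter] at hp
  exact Nat.prime_of_mem_primeFactors (Finset.mem_filter.1 hp).1

theorem pf_SQB : T_SQB := by
  intro n hn1
  have hn : n ≠ 0 := by omega
  have hsqdvd : Pool.Agent.H82.AS.sq n ∣ n := by
    have h1 := Finset.prod_dvd_prod_of_subset _ _ (fun p => p ^ n.factorization p)
      (Finset.filter_subset (fun p => p ^ 2 ∣ n) n.primeFactors)
    rw [prod_pf hn] at h1
    exact h1
  have hsq0 : Pool.Agent.H82.AS.sq n ≠ 0 := fun h0 => hn (by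
    rw [h0] at hsqdvd; exact Nat.eq_zero_of_zero_dvd hsqdvd)
  have hpf : (Pool.Agent.H82.AS.sq n).primeFactors =
      n.primeFactors.filter (fun p => p ^ 2 ∣ n) := by
    rw [← Nat.support_factorization, sq_fac hn, Finsupp.support_filter]
    rfl
  refine ⟨?_, hsqdvd, ?_, ?_, ?_, ?_, ?_⟩
  · intro p hp hpn
    have h1 : p ∈ (Pool.Agent.H82.AS.sq n).primeFactors := Nat.mem_primeFactors.2 ⟨hp, hpn, hsq0⟩
    rw [hpf] at h1
    have h2 := (Finset.mem_filter.1 h1).2
    rw [hp.pow_dvd_iff_le_factorization hsq0, sq_fac hn, fil_pos h2]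
    exact two_le_fac hn hp h2
  · rw [ex_eq hsq0, ex_eq hn]
    congr 1
    unfold qn
    rw [hpf, Finset.prod_filter]
    refine Finset.prod_congr rfl fun p hp => ?_
    by_cases h : p ^ 2 ∣ n
    · rw [if_pos h, sq_fac hn, fil_pos h]
    · rw [if_neg h]
      have h2 : ¬ 2 ≤ n.factorization p := fun h3 =>
        h (((Nat.prime_of_mem_primeFactors hp).pow_dvd_iff_le_factorization hn).2 h3)
      have h3 : n.factorization p - 1 = 0 := by omega
      rw [h3, pow_zero]
  · intro D hD hDn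
    have hD0 : D ≠ 0 := fun h0 => hn (by rw [h0] at hDn; exact Nat.eq_zero_of_zero_dvd hDn)
    rw [← Nat.factorization_le_iff_dvd hD0 hsq0, sq_fac hn]
    intro p
    by_cases h : p ^ 2 ∣ n
    · rw [fil_pos h]
      exact (Nat.factorization_le_iff_dvd hD0 hn).2 hDn p
    · rw [fil_neg h]
      by_cases hp : p.Prime
      · have h1 : ¬ p ∣ D := fun h2 => h ((hD p hp h2).trans hDn)
        rw [Nat.factorization_eq_zero_of_not_dvd h1]
      · rw [Nat.factorization_eq_zero_of_not_prime _ hp]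
  · intro E hE
    have hE0 : E ≠ 0 := fun h0 => hn (by rw [h0] at hE; exact Nat.eq_zero_of_zero_dvd hE)
    rw [ex_eq hE0, ex_eq hn]
    refine ⟨by exact_mod_cast qn_pos E, ?_⟩
    exact_mod_cast Nat.le_of_dvd (qn_pos n) (qn_dvd hn hE)
  · rw [ex_eq hn]
    have h1 : qn n ∣ n := ⟨pd n.primeFactors, by rw [mul_comm]; exact (pd_mul_qn hn).symm⟩
    exact_mod_cast Nat.le_of_dvd hn1 h1
  · intro hS
    have h1 : pd n.primeFactors ∣ qn n := by
      unfold pd qn
      refine Finset.prod_dvd_prod_of_dvd _ _ fun p hp => ?_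
      have h2 := two_le_fac hn (Nat.prime_of_mem_primeFactors hp)
        (hS p (Nat.prime_of_mem_primeFactors hp) (Nat.dvd_of_mem_primeFactors hp))
      exact dvd_pow_self p (by omega)
    calc (pd n.primeFactors) ^ 2 = pd n.primeFactors * pd n.primeFactors := sq _
      _ ≤ pd n.primeFactors * qn n := Nat.mul_le_mul_left _ (Nat.le_of_dvd (qn_pos n) h1)
      _ = n := pd_mul_qn hn

end Pool.Agent.H68.AS
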