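import Pool.Agent.H82.AS.Targets2
import Pool.Agent.H74.AS.BXD

/-!
# Triples with given divisors, of height between two bounds
-/

set_option autoImplicit false
set_option linter.unusedVariables false

open Pool.Agent.H38.RB Pool.Agent.H38.PS Pool.Agent.H82.AS

namespace Pool.Agent.H68.AS

open Pool.Agent.H74.AS (cells)

/-- geometric sums, falling -/
theorem geo_down (F : Finset ℕ) (δ : ℝ) (hδ : 0 < δ) (hF : ∀ m ∈ F, δ < 2 ^ m) :
    ∑ m ∈ F, (1 : ℝ) / 2 ^ m ≤ 2 / δ := by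
  classical
  rcases F.eq_empty_or_nonempty with rfl | hne
  · simp
    positivity
  · obtain ⟨m₀, hm₀⟩ : ∃ m₀, m₀ = F.min' hne := ⟨_, rfl⟩
    have h1 : m₀ ∈ F := hm₀ ▸ F.min'_mem hne
    have h2 : ∀ m ∈ F, m₀ ≤ m := fun m hm => hm₀ ▸ F.min'_le m hm
    have h3 : F ⊆ (Finset.range (F.max' hne + 1)).image (fun i => m₀ + i) := by
      intro m hm
      rw [Finset.mem_image]
      refine ⟨m - m₀, ?_, ?_⟩
      · rw [Finset.mem_range]
        have := F.le_max' m hm
        omega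
      · have := h2 m hm
        omega
    calc ∑ m ∈ F, (1 : ℝ) / 2 ^ m
        ≤ ∑ m ∈ (Finset.range (F.max' hne + 1)).image (fun i => m₀ + i), (1 : ℝ) / 2 ^ m :=
          Finset.sum_le_sum_of_subset_of_nonneg h3 (fun _ _ _ => by positivity)
      _ = ∑ i ∈ Finset.range (F.max' hne + 1), (1 : ℝ) / 2 ^ (m₀ + i) :=
          Finset.sum_image (fun a _ b _ h => by omega)
      _ = (1 / 2 ^ m₀) * ∑ i ∈ Finset.range (F.max' hne + 1), (1 / 2 : ℝ) ^ i := by
          rw [Finset.mul_sum]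
          refine Finset.sum_congr rfl fun i _ => ?_
          rw [pow_add, one_div_pow]
          field_simp
      _ ≤ (1 / 2 ^ m₀) * 2 :=
          mul_le_mul_of_nonneg_left (sum_geometric_two_le _) (by positivity)
      _ ≤ 2 / δ := by
          have h4 := hF m₀ h1
          rw [one_div_mul_eq_div]
          exact div_le_div_of_nonneg_left (by norm_num) hδ h4.le

/-- geometric sums, rising -/
theorem geo_up (F : Finset ℕ) (A : ℝ) (hA : 0 ≤ A) (hF : ∀ m ∈ F, (2 : ℝ) ^ m ≤ A) :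
    ∑ m ∈ F, (4 : ℝ) ^ m ≤ 2 * A ^ 2 := by
  classical
  rcases F.eq_empty_or_nonempty with rfl | hne
  · simp only [Finset.sum_empty]
    positivity
  · have h0 : ∀ n : ℕ, ∑ i ∈ Finset.range (n + 1), (4 : ℝ) ^ i ≤ 2 * 4 ^ n := by
      intro n
      induction n with
      | zero => simp
      | succ n ih =>
        rw [Finset.sum_range_succ, pow_succ]
        have : (0 : ℝ) < 4 ^ n := by positivity
        linarith
    have h1 : F ⊆ Finset.range (F.max' hne + 1) := by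
      intro m hm
      rw [Finset.mem_range]
      have := F.le_max' m hm
      omega
    have h2 := hF _ (F.max'_mem hne)
    calc ∑ m ∈ F, (4 : ℝ) ^ m ≤ ∑ m ∈ Finset.range (F.max' hne + 1), (4 : ℝ) ^ m :=
          Finset.sum_le_sum_of_subset_of_nonneg h1 (fun _ _ _ => by positivity)
      _ ≤ 2 * 4 ^ (F.max' hne) := h0 _
      _ = 2 * ((2 : ℝ) ^ (F.max' hne)) ^ 2 := by
          rw [← pow_mul, mul_comm (F.max' hne) 2, pow_mul]
          norm_num
      _ ≤ 2 * A ^ 2 := by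
          have := pow_le_pow_left₀ (by positivity) h2 2
          linarith

/-- the sum over the cells -/
theorem cell_sum (F : Finset ℕ) (T μ : ℝ) (hT : 1 ≤ T) (hμ : 0 < μ)
    (hF : ∀ m ∈ F, μ < 2 ^ (m + 1)) :
    ∑ m ∈ F, (2 : ℝ) ^ m * min (2 ^ m) (8 * T / (2 ^ m) ^ 2) ≤
      32 * min (T / μ) (T ^ (2 / 3 : ℝ)) := by
  classical
  have hle : ∀ m : ℕ, (2 : ℝ) ^ m * min (2 ^ m) (8 * T / (2 ^ m) ^ 2) ≤ 8 * T * (1 / 2 ^ m) := by
    intro m
    have h1 : (0 : ℝ) < 2 ^ m := by positivity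
    calc (2 : ℝ) ^ m * min (2 ^ m) (8 * T / (2 ^ m) ^ 2) ≤ 2 ^ m * (8 * T / (2 ^ m) ^ 2) :=
          mul_le_mul_of_nonneg_left (min_le_right _ _) h1.le
      _ = 8 * T * (1 / 2 ^ m) := by field_simp
  have hle' : ∀ m : ℕ, (2 : ℝ) ^ m * min (2 ^ m) (8 * T / (2 ^ m) ^ 2) ≤ 4 ^ m := by
    intro m
    have h1 : (0 : ℝ) < 2 ^ m := by positivity
    calc (2 : ℝ) ^ m * min (2 ^ m) (8 * T / (2 ^ m) ^ 2) ≤ 2 ^ m * 2 ^ m :=
          mul_le_mul_of_nonneg_left (min_le_left _ _) h1.le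
      _ = 4 ^ m := by rw [← mul_pow]; norm_num
  have h8 : 0 ≤ 8 * T := by linarith
  have ha : ∑ m ∈ F, (2 : ℝ) ^ m * min (2 ^ m) (8 * T / (2 ^ m) ^ 2) ≤ 32 * (T / μ) := by
    calc _ ≤ ∑ m ∈ F, 8 * T * (1 / 2 ^ m) := Finset.sum_le_sum fun m _ => hle m
      _ = 8 * T * ∑ m ∈ F, (1 : ℝ) / 2 ^ m := (Finset.mul_sum _ _ _).symm
      _ ≤ 8 * T * (2 / (μ / 2)) := by
          refine mul_le_mul_of_nonneg_left (geo_down F (μ / 2) (by positivity) fun m hm => ?_) h8
          have := hF m hm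
          rw [pow_succ] at this
          linarith
      _ = 32 * (T / μ) := by field_simp; norm_num
  have hb : ∑ m ∈ F, (2 : ℝ) ^ m * min (2 ^ m) (8 * T / (2 ^ m) ^ 2) ≤
      32 * T ^ (2 / 3 : ℝ) := by
    obtain ⟨A, hA⟩ : ∃ A : ℝ, A = T ^ (1 / 3 : ℝ) := ⟨_, rfl⟩
    have hT0 : 0 < T := by linarith
    have hA0 : 0 < A := by rw [hA]; positivity
    have hA2 : A ^ 2 = T ^ (2 / 3 : ℝ) := by
      rw [hA, ← Real.rpow_natCast, ← Real.rpow_mul hT0.le]
      norm_num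
    have hA3 : T / A = T ^ (2 / 3 : ℝ) := by
      rw [hA, div_eq_iff (by positivity), ← Real.rpow_add hT0]
      norm_num
    rw [← Finset.sum_filter_add_sum_filter_not F (fun m => (2 : ℝ) ^ m ≤ A)]
    have h1 : ∑ m ∈ F.filter (fun m => (2 : ℝ) ^ m ≤ A),
        (2 : ℝ) ^ m * min (2 ^ m) (8 * T / (2 ^ m) ^ 2) ≤ 2 * A ^ 2 := by
      calc _ ≤ ∑ m ∈ F.filter (fun m => (2 : ℝ) ^ m ≤ A), (4 : ℝ) ^ m :=
            Finset.sum_le_sum fun m _ => hle' m
        _ ≤ _ := geo_up _ A hA0.le fun m hm => (Finset.mem_filter.1 hm).2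
    have h2 : ∑ m ∈ F.filter (fun m => ¬ (2 : ℝ) ^ m ≤ A),
        (2 : ℝ) ^ m * min (2 ^ m) (8 * T / (2 ^ m) ^ 2) ≤ 8 * T * (2 / A) := by
      calc _ ≤ ∑ m ∈ F.filter (fun m => ¬ (2 : ℝ) ^ m ≤ A), 8 * T * (1 / 2 ^ m) :=
            Finset.sum_le_sum fun m _ => hle m
        _ = 8 * T * ∑ m ∈ F.filter (fun m => ¬ (2 : ℝ) ^ m ≤ A), (1 : ℝ) / 2 ^ m :=
            (Finset.mul_sum _ _ _).symm
        _ ≤ _ := mul_le_mul_of_nonneg_left
            (geo_down _ A hA0 fun m hm => not_le.1 (Finset.mem_filter.1 hm).2) h8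
    have h3 : 8 * T * (2 / A) = 16 * T ^ (2 / 3 : ℝ) := by rw [← hA3]; ring
    rw [hA2] at h1
    rw [h3] at h2
    have h4 : 0 ≤ T ^ (2 / 3 : ℝ) := by positivity
    linarith
  rw [mul_min_of_nonneg _ _ (by norm_num)]
  exact le_min ha hb

/-- one cell: the smallest entry is `x j`, and the size of `x k` is known up to the factor `2` -/
theorem cellM (hP : T_PGN) (d : Fin 3 → ℕ) (T : ℝ) (hd : ∀ i, 1 ≤ d i)
    (hc : ∀ i j, i ≠ j → (d i).Coprime (d j)) (hT : 1 ≤ T) (j k l : Fin 3) (hjk : k ≠ j)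
    (hall : ∀ i, i = j ∨ i = k ∨ i = l)
    (hprod : ∀ x : Fin 3 → ℤ, x 0 * x 1 * x 2 = x j * x k * x l)
    (hsum : ∀ x : Fin 3 → ℤ, x 0 + x 1 + x 2 = x j + x k + x l) (m : ℕ)
    (F : Finset (Fin 3 → ℤ)) (hF : ∀ x ∈ F, Adm x ∧ (∀ i, (d i : ℤ) ∣ x i) ∧ (pr x : ℝ) ≤ T ∧
      |x j| ≤ |x k| ∧ |x j| ≤ |x l| ∧ (2 : ℝ) ^ m / 2 < |(x k : ℝ)| ∧ |(x k : ℝ)| ≤ 2 ^ m) :
    (F.card : ℝ) ≤ 16 * ((2 : ℝ) ^ m * min (2 ^ m) (8 * T / (2 ^ m) ^ 2)) /
      ((d 0 : ℝ) * d 1 * d 2) + 8 := by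
  classical
  have hA : (0 : ℝ) < 2 ^ m := by positivity
  have hs0 : ∀ x ∈ F, x l = -x j - x k := by
    intro x hx
    have := (hF x hx).1.2.2
    rw [hsum] at this
    linarith
  have hinj : Set.InjOn (fun x : Fin 3 → ℤ => (x k, x j)) (F : Set (Fin 3 → ℤ)) := by
    intro x hx y hy hxy
    simp only [Prod.mk.injEq] at hxy
    funext i
    rcases hall i with h | h | h
    · rw [h]; exact hxy.2
    · rw [h]; exact hxy.1
    · rw [h, hs0 x hx, hs0 y hy, hxy.1, hxy.2]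
  have hcard : (F.image fun x : Fin 3 → ℤ => (x k, x j)).card = F.card :=
    Finset.card_image_of_injOn hinj
  have hD1 : 1 ≤ d 0 * d 1 * d 2 := Nat.mul_pos (Nat.mul_pos (hd 0) (hd 1)) (hd 2)
  have key := hP (F.image fun x : Fin 3 → ℤ => (x k, x j)) (d 0 * d 1 * d 2) (2 ^ m)
    (min (2 ^ m) (8 * T / (2 ^ m) ^ 2)) hD1 hA (le_min hA.le (by positivity)) ?_ ?_
  · rw [hcard] at key
    refine key.trans ?_
    push_cast
    rw [mul_assoc (16 : ℝ)]
  · intro P hP'
    obtain ⟨x, hx, rfl⟩ := Finset.mem_image.mp hP'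
    obtain ⟨⟨hne, hcop, -⟩, -, hpr, hjk', hjl, hlo, hhi⟩ := hF x hx
    refine ⟨hcop k j hjk, hlo, hhi, ?_⟩
    have hjr : |(x j : ℝ)| ≤ |(x k : ℝ)| := by exact_mod_cast hjk'
    have hlr : |(x j : ℝ)| ≤ |(x l : ℝ)| := by exact_mod_cast hjl
    refine le_min (hjr.trans hhi) ?_
    have hkl : |(x k : ℝ)| ≤ |(x j : ℝ)| + |(x l : ℝ)| := by
      have h := hs0 x hx
      have h' : (x k : ℝ) = -(x j : ℝ) - x l := by
        have : x k = -x j - x l := by linarith
        exact_mod_cast this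
      rw [h']
      calc |-(x j : ℝ) - x l| ≤ |-(x j : ℝ)| + |(x l : ℝ)| := abs_sub _ _
        _ = |(x j : ℝ)| + |(x l : ℝ)| := by rw [abs_neg]
    have hl4 : (2 : ℝ) ^ m / 4 ≤ |(x l : ℝ)| := by linarith
    have hpr' : |(x j : ℝ)| * |(x k : ℝ)| * |(x l : ℝ)| ≤ T := by
      have : ((pr x : ℕ) : ℝ) = |(x j : ℝ)| * |(x k : ℝ)| * |(x l : ℝ)| := by
        unfold pr
        rw [hprod, Nat.cast_natAbs]
        push_cast
        rw [abs_mul, abs_mul]
      rw [← this]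
      exact hpr
    have h0 := abs_nonneg (x j : ℝ)
    rw [le_div_iff₀ (by positivity)]
    have h5 : |(x j : ℝ)| * (2 ^ m / 2 * (2 ^ m / 4)) ≤ |(x j : ℝ)| * |(x k : ℝ)| * |(x l : ℝ)| := by
      rw [mul_assoc]
      apply mul_le_mul_of_nonneg_left _ h0
      exact mul_le_mul hlo.le hl4 (by positivity) (abs_nonneg _)
    nlinarith
  · intro P hP' Q hQ'
    obtain ⟨x, hx, rfl⟩ := Finset.mem_image.mp hP'
    obtain ⟨y, hy, rfl⟩ := Finset.mem_image.mp hQ'
    have hdx := (hF x hx).2.1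
    have hdy := (hF y hy).2.1
    have hdiv : ∀ i, (d i : ℤ) ∣ x k * y j - x j * y k := by
      intro i
      rcases hall i with h | h | h
      · rw [h]
        exact dvd_sub (Dvd.dvd.mul_left (hdy j) _) (Dvd.dvd.mul_right (hdx j) _)
      · rw [h]
        exact dvd_sub (Dvd.dvd.mul_right (hdx k) _) (Dvd.dvd.mul_left (hdy k) _)
      · have e : x k * y j - x j * y k = x j * y l - x l * y j := by
          rw [hs0 x hx, hs0 y hy]
          ring
        rw [h, e]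
        exact dvd_sub (Dvd.dvd.mul_left (hdy l) _) (Dvd.dvd.mul_right (hdx l) _)
    push_cast
    have c01 : IsCoprime (d 0 : ℤ) (d 1 : ℤ) := Nat.isCoprime_iff_coprime.mpr (hc 0 1 (by decide))
    have c02 : IsCoprime (d 0 : ℤ) (d 2 : ℤ) := Nat.isCoprime_iff_coprime.mpr (hc 0 2 (by decide))
    have c12 : IsCoprime (d 1 : ℤ) (d 2 : ℤ) := Nat.isCoprime_iff_coprime.mpr (hc 1 2 (by decide))
    exact (IsCoprime.mul_left c02 c12).mul_dvd (c01.mul_dvd (hdiv 0) (hdiv 1)) (hdiv 2)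

/-- (BXM) triples with given divisors, of height between two bounds. -/
theorem pf_BXM (hP : T_PGN) : T_BXM := by
  classical
  refine ⟨1536, by norm_num, ?_⟩
  intro d T H μ hd hc hT hH hμ
  set S : Set (Fin 3 → ℤ) :=
    {x | Adm x ∧ (∀ i, (d i : ℤ) ∣ x i) ∧ (pr x : ℝ) ≤ T ∧ μ < (ht x : ℝ) ∧ (ht x : ℝ) ≤ H} with hS
  have hbd : ∀ x ∈ S, ∀ i, (x i).natAbs ≤ ⌊H⌋₊ := by
    intro x hx i
    have h1 : ht x ≤ ⌊H⌋₊ := Nat.le_floor hx.2.2.2.2
    refine le_trans ?_ h1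
    unfold ht
    fin_cases i
    · exact le_max_left _ _
    · exact (le_max_left _ _).trans (le_max_right _ _)
    · exact (le_max_right _ _).trans (le_max_right _ _)
  have hfin : S.Finite := by
    apply (Set.finite_Icc (fun _ : Fin 3 => -(⌊H⌋₊ : ℤ)) (fun _ => (⌊H⌋₊ : ℤ))).subset
    intro x hx
    rw [Set.mem_Icc]
    constructor
    · intro i
      have := hbd x hx i
      simp only
      omega
    · intro i
      have := hbd x hx i
      simp only
      omega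
  refine ⟨hfin, ?_⟩
  rw [Set.ncard_eq_toFinset_card _ hfin]
  set M := Nat.clog 2 ⌊H⌋₊ with hM
  -- the cells
  let Fc : Fin 3 → ℕ → Finset (Fin 3 → ℤ) := fun j m => hfin.toFinset.filter fun x =>
    |x j| ≤ |x (j + 1)| ∧ |x j| ≤ |x (j + 2)| ∧ (2 : ℝ) ^ m / 2 < |(x (j + 1) : ℝ)| ∧
      |(x (j + 1) : ℝ)| ≤ 2 ^ m
  have hcover : hfin.toFinset ⊆ (Finset.univ : Finset (Fin 3)).biUnion fun j =>
      (Finset.range (M + 1)).biUnion fun m => Fc j m := by
    intro x hx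
    have hxS : x ∈ S := by simpa using hx
    obtain ⟨j, -, hj⟩ := Finset.exists_min_image (Finset.univ : Finset (Fin 3)) (fun i => |x i|)
      ⟨0, Finset.mem_univ _⟩
    have hn0 : x (j + 1) ≠ 0 := hxS.1.1 _
    have hpos : 1 ≤ (x (j + 1)).natAbs := Nat.pos_of_ne_zero (by simpa using hn0)
    set m := Nat.clog 2 (x (j + 1)).natAbs with hm
    have hup : (x (j + 1)).natAbs ≤ 2 ^ m := Nat.le_pow_clog (by norm_num) _
    have hlow : (2 : ℝ) ^ m / 2 < ((x (j + 1)).natAbs : ℝ) := by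
      rcases Nat.eq_or_lt_of_le hpos with h | h
      · have : m = 0 := by rw [hm, ← h]; simp
        rw [this, ← h]
        norm_num
      · have h1 : 2 ^ (m - 1) < (x (j + 1)).natAbs :=
          Nat.pow_pred_clog_lt_self (by norm_num) (by omega)
        have h2 : 1 ≤ m := Nat.clog_pos (by norm_num) h
        have h3 : ((2 ^ (m - 1) : ℕ) : ℝ) < ((x (j + 1)).natAbs : ℝ) := by exact_mod_cast h1
        push_cast at h3
        have h4 : (2 : ℝ) ^ m = 2 ^ (m - 1) * 2 := by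
          rw [← pow_succ]
          congr 1
          omega
        rw [h4]
        linarith
    have habs : |(x (j + 1) : ℝ)| = ((x (j + 1)).natAbs : ℝ) := by
      rw [Nat.cast_natAbs, Int.cast_abs]
    rw [Finset.mem_biUnion]
    refine ⟨j, Finset.mem_univ _, ?_⟩
    rw [Finset.mem_biUnion]
    refine ⟨m, ?_, ?_⟩
    · rw [Finset.mem_range]
      have : m ≤ M := Nat.clog_mono_right 2 (hbd x hxS (j + 1))
      omega
    · rw [Finset.mem_filter]
      refine ⟨hx, hj _ (Finset.mem_univ _), hj _ (Finset.mem_univ _), ?_, ?_⟩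
      · rw [habs]; exact hlow
      · rw [habs]; exact_mod_cast hup
  have hcell : ∀ (j : Fin 3) (m : ℕ),
      ((Fc j m).card : ℝ) ≤ 16 * ((2 : ℝ) ^ m * min (2 ^ m) (8 * T / (2 ^ m) ^ 2)) /
        ((d 0 : ℝ) * d 1 * d 2) + 8 := by
    intro j m
    have hmem : ∀ x ∈ Fc j m, Adm x ∧ (∀ i, (d i : ℤ) ∣ x i) ∧ (pr x : ℝ) ≤ T ∧
        |x j| ≤ |x (j + 1)| ∧ |x j| ≤ |x (j + 2)| ∧ (2 : ℝ) ^ m / 2 < |(x (j + 1) : ℝ)| ∧
          |(x (j + 1) : ℝ)| ≤ 2 ^ m := by
      intro x hx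
      rw [Finset.mem_filter] at hx
      have hxS : x ∈ S := by simpa using hx.1
      exact ⟨hxS.1, hxS.2.1, hxS.2.2.1, hx.2⟩
    refine cellM hP d T hd hc hT j (j + 1) (j + 2) ?_ ?_ ?_ ?_ m (Fc j m) hmem
    · clear hmem
      revert j
      decide
    · clear hmem
      revert j
      decide
    · intro x
      fin_cases j
      · change x 0 * x 1 * x 2 = x 0 * x 1 * x 2
        rfl
      · change x 0 * x 1 * x 2 = x 1 * x 2 * x 0
        ring
      · change x 0 * x 1 * x 2 = x 2 * x 0 * x 1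
        ring
    · intro x
      fin_cases j
      · change x 0 + x 1 + x 2 = x 0 + x 1 + x 2
        rfl
      · change x 0 + x 1 + x 2 = x 1 + x 2 + x 0
        ring
      · change x 0 + x 1 + x 2 = x 2 + x 0 + x 1
        ring
  have hempty : ∀ (j : Fin 3) (m : ℕ), ¬ μ < 2 ^ (m + 1) → Fc j m = ∅ := by
    intro j m hm
    rw [Finset.eq_empty_iff_forall_notMem]
    intro x hx
    rw [Finset.mem_filter] at hx
    have hxS : x ∈ S := by simpa using hx.1
    obtain ⟨h1, h2, h3, h4⟩ := hx.2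
    have hs := hxS.1.2.2
    have hle1 : |x (j + 2)| ≤ 2 * |x (j + 1)| := by
      have e : x (j + 2) = -x j - x (j + 1) := by
        have : x j + x (j + 1) + x (j + 2) = 0 := by
          rw [← hs]
          fin_cases j
          · change x 0 + x 1 + x 2 = x 0 + x 1 + x 2
            rfl
          · change x 1 + x 2 + x 0 = x 0 + x 1 + x 2
            ring
          · change x 2 + x 0 + x 1 = x 0 + x 1 + x 2
            ring
        linarith
      rw [e]
      calc |-x j - x (j + 1)| ≤ |-x j| + |x (j + 1)| := abs_sub _ _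
        _ = |x j| + |x (j + 1)| := by rw [abs_neg]
        _ ≤ 2 * |x (j + 1)| := by linarith
    have hall : ∀ i : Fin 3, (x i).natAbs ≤ 2 * (x (j + 1)).natAbs := by
      intro i
      have h5 : i = j ∨ i = j + 1 ∨ i = j + 2 := by
        clear hle1 h1 h2 h3 h4 hx
        revert i j
        decide
      have h0 := abs_nonneg (x (j + 1))
      have key : |x i| ≤ 2 * |x (j + 1)| := by
        rcases h5 with h | h | h
        · rw [h]
          linarith
        · rw [h]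
          linarith
        · rw [h]
          exact hle1
      rw [Int.abs_eq_natAbs, Int.abs_eq_natAbs] at key
      exact_mod_cast key
    have hht : ht x ≤ 2 * (x (j + 1)).natAbs := by
      unfold ht
      exact max_le (hall 0) (max_le (hall 1) (hall 2))
    have habs : |(x (j + 1) : ℝ)| = ((x (j + 1)).natAbs : ℝ) := by
      rw [Nat.cast_natAbs, Int.cast_abs]
    rw [habs] at h4
    have h6 : (ht x : ℝ) ≤ 2 * ((x (j + 1)).natAbs : ℝ) := by exact_mod_cast hht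
    have h7 := hxS.2.2.2.1
    apply hm
    rw [pow_succ]
    linarith
  obtain ⟨G, hG⟩ : ∃ G : Finset ℕ, G = (Finset.range (M + 1)).filter (fun m => μ < 2 ^ (m + 1)) :=
    ⟨_, rfl⟩
  have hDp : (0 : ℝ) < (d 0 : ℝ) * d 1 * d 2 := by
    have h0 := hd 0
    have h1 := hd 1
    have h2 := hd 2
    have : 0 < d 0 * d 1 * d 2 := Nat.mul_pos (Nat.mul_pos h0 h1) h2
    exact_mod_cast this
  have hrow : ∀ j : Fin 3, ∑ m ∈ Finset.range (M + 1), ((Fc j m).card : ℝ) ≤
      512 * (min (T / μ) (T ^ (2 / 3 : ℝ)) / ((d 0 : ℝ) * d 1 * d 2)) + 40 * Real.log H := by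
    intro j
    have e1 : ∑ m ∈ Finset.range (M + 1), ((Fc j m).card : ℝ) = ∑ m ∈ G, ((Fc j m).card : ℝ) := by
      rw [hG, Finset.sum_filter]
      refine Finset.sum_congr rfl fun m _ => ?_
      by_cases hm : μ < 2 ^ (m + 1)
      · rw [if_pos hm]
      · rw [if_neg hm, hempty j m hm]
        simp
    rw [e1]
    have e2 : (G.card : ℝ) ≤ 5 * Real.log H := by
      refine le_trans ?_ (cells H hH)
      rw [← hM]
      have : G.card ≤ M + 1 := by
        rw [hG]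
        exact (Finset.card_filter_le _ _).trans (by rw [Finset.card_range])
      exact_mod_cast this
    have e3 := cell_sum G T μ hT hμ (fun m hm => by
      rw [hG, Finset.mem_filter] at hm
      exact hm.2)
    calc ∑ m ∈ G, ((Fc j m).card : ℝ)
        ≤ ∑ m ∈ G, (16 * ((2 : ℝ) ^ m * min (2 ^ m) (8 * T / (2 ^ m) ^ 2)) /
          ((d 0 : ℝ) * d 1 * d 2) + 8) := Finset.sum_le_sum fun m _ => hcell j m
      _ = 16 * (∑ m ∈ G, (2 : ℝ) ^ m * min (2 ^ m) (8 * T / (2 ^ m) ^ 2)) /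
          ((d 0 : ℝ) * d 1 * d 2) + 8 * (G.card : ℝ) := by
          rw [Finset.sum_add_distrib, Finset.sum_const, nsmul_eq_mul, ← Finset.sum_div,
            ← Finset.mul_sum]
          ring
      _ ≤ 16 * (32 * min (T / μ) (T ^ (2 / 3 : ℝ))) / ((d 0 : ℝ) * d 1 * d 2) +
          8 * (5 * Real.log H) := by
          refine add_le_add ?_ (by linarith)
          exact div_le_div_of_nonneg_right (by linarith) hDp.le
      _ = _ := by ring
  have h1 : hfin.toFinset.card ≤ ∑ j : Fin 3, ∑ m ∈ Finset.range (M + 1), (Fc j m).card :=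
    (Finset.card_le_card hcover).trans (Finset.card_biUnion_le.trans
      (Finset.sum_le_sum fun j _ => Finset.card_biUnion_le))
  have hlog : 0 ≤ Real.log H := Real.log_nonneg (by linarith)
  calc (hfin.toFinset.card : ℝ)
      ≤ ((∑ j : Fin 3, ∑ m ∈ Finset.range (M + 1), (Fc j m).card : ℕ) : ℝ) := by
        exact_mod_cast h1
    _ = ∑ j : Fin 3, ∑ m ∈ Finset.range (M + 1), ((Fc j m).card : ℝ) := by push_cast; rfl
    _ ≤ ∑ j : Fin 3, (512 * (min (T / μ) (T ^ (2 / 3 : ℝ)) / ((d 0 : ℝ) * d 1 * d 2)) +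
        40 * Real.log H) := Finset.sum_le_sum fun j _ => hrow j
    _ = 1536 * (min (T / μ) (T ^ (2 / 3 : ℝ)) / ((d 0 : ℝ) * d 1 * d 2)) +
        120 * Real.log H := by
        rw [Finset.sum_const, Finset.card_univ, Fintype.card_fin, nsmul_eq_mul]
        push_cast
        ring
    _ ≤ _ := by linarith

end Pool.Agent.H68.AS
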